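import Pool.Agent.Helper96.KimGlobal

/-!
# Motives with an invertible exterior or symmetric power are finite-dimensional

`𝒜` is a `ℚ`-linear, idempotent complete, symmetric monoidal category with duals in which the
endomorphisms of the unit object are the rational multiples of the identity, for instance the
category of Chow motives over `ℂ` (or over any field) with rational coefficients.

`T M n` is the `n`-th tensor power of `M`, a morphism on it is `Signed ε` if the transpositions of
neighbouring factors multiply it by `ε` (symmetric morphisms for `ε = 1`, alternating ones for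
`ε = -1`), and `IsPower ε M n D` says that `D` is the `n`-th symmetric, resp. exterior, power of
`M`: there is a universal symmetric (alternating) morphism from `T M n` to `D`. `PowZero ε M n`: the
`n`-th symmetric (exterior) power of `M` is zero. `Invertible D`: there is `D'` with `D ⊗ D' ≅ 1`.
`KimuraFinite M`: `M` is the direct sum of an object with a vanishing exterior power and an object
with a vanishing symmetric power. `tr f` is the trace of an endomorphism; `tr (𝟙 M)` is the
dimension of `M`.

Theorem. Let `n ≥ 1`, and let the `n`-th exterior power of `M` be invertible. Then `M` is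
finite-dimensional. More precisely, either `dim M = n` and `Λ^(n+1) M = 0`, or `dim M = -1` and
`Sym^2 M = 0`. The same for symmetric powers: if `Sym^n M` is invertible, then either `dim M = -n`
and `Sym^(n+1) M = 0`, or `dim M = 1` and `Λ^2 M = 0`.

There is no hypothesis on the dimension of `M`, and no realisation is used.

Proof. Let `e_n` be the (anti)symmetriser of `T M n`, `D` its image. As `D` is invertible, the
endomorphism of `D ⊗ M` induced by `e_(n+1)` is `D ◁ g` for an endomorphism `g` of `M`, so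
`e_(n+1) = (e_n ⊗ 1) ∘ (1 ⊗ g)`. The partial trace of this identity composed with the last
transposition gives `e_n ∘ (1 ⊗ g) = κ e_n` for an explicit rational number `κ`. The numbers
`dim M + ε k`, `k < n`, are not zero as their product is `± n!` (the dimension of `D` is `± 1`), and
successive partial traces give `g = κ`. So `e_(n+1) = κ (e_n ⊗ 1)` and `κ = 0` or `κ = 1`. In the
first case `e_(n+1) = 0`; in the second case partial traces give `e_2 = 1`.
-/

open CategoryTheory MonoidalCategory Limits BraidedCategory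

universe u v

namespace Pool.Agent.Results.MP_868bb7_ag.InvertiblePowers

open Pool.Agent.TH90.AB Pool.Agent.TH90.Kim Pool.Agent.Helper96.Kim

/-- An object with an invertible exterior or symmetric power is finite-dimensional in the sense of
Kimura. -/
theorem result {𝒜 : Type u} [Category.{v} 𝒜] [MonoidalCategory 𝒜] [SymmetricCategory 𝒜]
    [Preadditive 𝒜] [MonoidalPreadditive 𝒜] [Linear ℚ 𝒜] [MonoidalLinear ℚ 𝒜]
    [IsIdempotentComplete 𝒜] [∀ X : 𝒜, HasRightDual X]
    (hunit : ∀ f : 𝟙_ 𝒜 ⟶ 𝟙_ 𝒜, ∃ q : ℚ, f = q • 𝟙 (𝟙_ 𝒜)) {ε : ℚ} (hε : ε = 1 ∨ ε = -1)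
    (M D : 𝒜) (n : ℕ) (hn : 1 ≤ n) (hD : IsPower ε M n D) (hinv : Invertible D) :
    KimuraFinite M ∧
      ((PowZero ε M (n + 1) ∧ tr (𝟙 M) = (-(ε * (n : ℚ))) • 𝟙 (𝟙_ 𝒜)) ∨
        (PowZero (-ε) M 2 ∧ tr (𝟙 M) = ε • 𝟙 (𝟙_ 𝒜))) := by
  have hεε : ε * ε = 1 := by rcases hε with rfl | rfl <;> norm_num
  by_cases h0 : 𝟙 (𝟙_ 𝒜) = 0
  · refine ⟨kf_of_even (n := 0) (fun Y g _ => all_zero h0 g), Or.inl ⟨fun Y g _ => all_zero h0 g, ?_⟩⟩
    rw [all_zero h0 (tr (𝟙 M)), all_zero h0 (𝟙 (𝟙_ 𝒜)), smul_zero]
  obtain ⟨t, ht⟩ := hunit (tr (𝟙 M))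
  obtain ⟨i, r, hir, hri⟩ := hD.split hεε
  obtain ⟨c, hc, hβ, hDtr⟩ := hinv.data hunit h0
  obtain ⟨m, rfl⟩ : ∃ m, n = m + 1 := ⟨n - 1, by omega⟩
  rcases main_aux hεε ht h0 i r hir hri hc hβ hDtr with ⟨h1, h2⟩ | ⟨h1, h2⟩
  · refine ⟨?_, Or.inl ⟨h1, by rw [ht, h2]⟩⟩
    rcases hε with rfl | rfl
    · exact kf_of_odd h1
    · exact kf_of_even h1
  · refine ⟨?_, Or.inr ⟨h1, by rw [ht, h2]⟩⟩
    rcases hε with rfl | rfl
    · exact kf_of_even h1
    · rw [neg_neg] at h1
      exact kf_of_odd h1

end Pool.Agent.Results.MP_868bb7_ag.InvertiblePowers
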