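import Pool.Agent.Helper24.SE.Thick
import Pool.Graph.R_pool_sql_team_seeded_2aa45f1a.Q263.KT.Defs

/-!
# Kimura finite-dimensionality and exceptional sets with a power saving

Let `C` be the tensor category of Chow motives over `ℚ` with rational coefficients. A motive is Kimura
finite-dimensional (`IsKimura`) if it is the direct sum of a motive with an exterior power zero and a motive
with a symmetric power zero. For a separated scheme `X` of finite type over `ℚ` let `W(X)` be its weight
complex with compact supports (Gillet, Soulé), a bounded complex in `C`, well defined up to homotopy. For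
`F ∈ ℤ[x_1, …, x_r]` let `D(F)` be the complement of the (singular, reducible) hypersurface `F = 0` in the
affine space over `ℚ`. We call `F` an exception if it is false that, in the homotopy category, `W(D(F))` is a
direct summand of a complex of Kimura finite-dimensional motives. Let `Box(D, B)` be the finite set of the `F`
of degree at most `D` in each variable, for which the sum of the absolute values of the coefficients is at
most `B`, and `Exc(D, B)` the set of the exceptions in the box.

Let `Var` be the set of the smooth projective complex varieties which can be defined over a number field, and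
let `Kim V` be the statement of Q1 for `V`, that is `V` is Kimura finite-dimensional.

**Theorem.** (1) All `V` in `Var` of dimension at most `d` are Kimura finite-dimensional if and only if the
exceptional sets in `d + 1` variables have a power saving: for some `ε > 0` there are infinitely many `D` and
for these infinitely many `B` such that `#Exc(D, B) ≤ #Box(D, B) ^ (1 - ε)`.

(2) All `V` in `Var` are Kimura finite-dimensional if and only if the exceptional sets in `r` variables have a
power saving, for infinitely many `r`.

(3) A zero–one law: if there is one exception in `r` variables, then for every `ε > 0`, for all large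
`D` and all large `B` (depending on `D`) there are more than `#Box(D, B) ^ (1 - ε)` exceptions.

(4) If the hypersurfaces `F = 0` and `G = 0` in the affine space over `ℚ` are disjoint and `F` is an exception, then `G` or `F G` is an
exception.
-/

set_option autoImplicit false
set_option linter.checkUnivs false
set_option linter.unusedSectionVars false

open CategoryTheory Limits AlgebraicGeometry Filter MonoidalCategory Pool.Agent.Y116.UV
  Pool.Agent.Q282.UM Pool.Agent.Q282.UK Pool.Agent.Helper62.EC Pool.Agent.Helper24.KD

open Pool.Agent.Q263.KT (IsKimura)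

open Pool.Agent.Helper24.SE (Box Exc Saving)

universe v u

namespace Pool.Agent.Results.MP_868bb7_ag.PowerSaving

/-- The complement `D(F) : F ≠ 0` in the affine space over `ℚ`. -/
noncomputable def princ {r : ℕ} (F : MvPolynomial (Fin r) ℤ) : Sch ℚ :=
  aff ℚ (Localization.Away (MvPolynomial.map (algebraMap ℤ ℚ) F))

/-- The tensor category `C` of Chow motives over `ℚ`, with

* the motives `h(X)`, the Tate twists `N(n)` and the weight complexes `W(X)` (`Weights`);
* the smooth projective complex varieties `V : Var` which can be defined over a number field, their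
  dimensions, and the statements `Kim V`: `V` is Kimura finite-dimensional. -/
structure Mot where
  C : Type u
  [cat : Category.{v} C]
  [pre : Preadditive C]
  [lin : Linear ℚ C]
  [mon : MonoidalCategory C]
  [sym : SymmetricCategory C]
  [zero : HasZeroObject C]
  [bin : HasBinaryBiproducts C]
  [fin : HasFiniteBiproducts C]
  D : Weights ℚ C
  Var : Type
  dim : Var → ℕ
  Kim : Var → Prop

attribute [instance] Mot.cat Mot.pre Mot.lin Mot.mon Mot.sym Mot.zero Mot.bin Mot.fin

variable (M : Mot.{v, u})

/-- The known properties.

* `weight`: the weight complexes;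
* `kimura`: Kimura's theorem on sums and direct summands;
* `points`: the motives `h(Y)(n)`, `dim Y = 0`, are finite-dimensional;
* `model`: every `V` is a component of `X ⊗ ℂ` for a smooth projective `X` over `ℚ` with `dim X = dim V`, and `V`
  is Kimura finite-dimensional if `h(X)` is;
* `fibre`: if `X` is smooth and projective over `ℚ` of dimension at most `d`, then `X ⊗ ℂ` is a finite disjoint
  union of `V` in `Var` of dimension at most `d`, and `h(X)` is Kimura finite-dimensional if these `V` are
  (Galois descent). -/
structure Known : Prop where
  weight : IsWeightComplex M.D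
  kimura : IsThick (IsKimura (C := M.C))
  points : ∀ (n : ℤ) (Y : Sch ℚ), IsSmoothProjective Y → topologicalKrullDim Y.left ≤ (0 : ℕ) →
    IsKimura ((M.D.tw n).obj (M.D.h Y))
  model : ∀ V : M.Var, ∃ X : Sch ℚ, IsSmoothProjective X ∧
    topologicalKrullDim X.left ≤ M.dim V ∧ (IsKimura (M.D.h X) → M.Kim V)
  fibre : ∀ (X : Sch ℚ) (d : ℕ), IsSmoothProjective X → topologicalKrullDim X.left ≤ d →
    (∀ V : M.Var, M.dim V ≤ d → M.Kim V) → IsKimura (M.D.h X)

/-- `F` is an exception: it is false that `W(D(F))` is, up to homotopy, a direct summand of a complex of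
Kimura finite-dimensional motives. -/
def Exception {r : ℕ} (F : MvPolynomial (Fin r) ℤ) : Prop :=
  ¬ TermsIn (IsKimura (C := M.C)) (M.D.W (princ F))

/-- **Kimura finite-dimensionality and exceptional sets with a power saving.** See the explanations
above. -/
theorem result (M : Mot.{v, u}) (hM : Known M) :
    -- (1) dimension at most `d`
    (∀ d : ℕ, (∀ V : M.Var, M.dim V ≤ d → M.Kim V) ↔ Saving (r := d + 1) (Exception M)) ∧
    -- (2) all dimensions
    ((∀ V : M.Var, M.Kim V) ↔ ∃ᶠ r : ℕ in atTop, Saving (r := r) (Exception M)) ∧
    -- (3) the zero-one law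
    (∀ (r : ℕ) (G : MvPolynomial (Fin r) ℤ), Exception M G → ∀ ε : ℝ, 0 < ε →
      ∀ᶠ D : ℕ in atTop, ∀ᶠ B : ℕ in atTop,
        ((Box r D B).ncard : ℝ) ^ (1 - ε) < ((Exc (r := r) (Exception M) D B).ncard : ℝ)) ∧
    -- (4) disjoint hypersurfaces
    ∀ (r : ℕ) (F G : MvPolynomial (Fin r) ℤ),
      Ideal.span {MvPolynomial.map (algebraMap ℤ ℚ) G} ⊔
        Ideal.span {MvPolynomial.map (algebraMap ℤ ℚ) F} = ⊤ →
      Exception M F → Exception M G ∨ Exception M (F * G) := by
  have hd : ∀ d : ℕ, (∀ V : M.Var, M.dim V ≤ d → M.Kim V) ↔
      ∀ Y : Sch ℚ, IsSmoothProjective Y → topologicalKrullDim Y.left ≤ d →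
        IsKimura (M.D.h Y) := by
    intro d
    constructor
    · exact fun h Y hY hd => hM.fibre Y d hY hd h
    · intro h V hV
      obtain ⟨X, h1, h2, h3⟩ := hM.model V
      exact h3 (h X h1 (h2.trans (by exact_mod_cast hV)))
  have h1 : ∀ d : ℕ, (∀ V : M.Var, M.dim V ≤ d → M.Kim V) ↔
      Saving (r := d + 1) (Exception M) := fun d =>
    (hd d).trans (Pool.Agent.Helper24.SE.thick_dim hM.kimura hM.weight hM.points d)
  refine ⟨h1, ?_, fun r G hG ε hε => ?_, fun r F G hFG hF => ?_⟩
  · constructor
    · exact fun h => frequently_atTop.mpr fun a => ⟨a + 1, by omega, (h1 a).mp fun V _ => h V⟩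
    · intro h V
      obtain ⟨r, hr, hrV⟩ := (h.and_eventually (eventually_ge_atTop (M.dim V + 1))).exists
      obtain ⟨d, rfl⟩ : ∃ d, r = d + 1 := ⟨r - 1, by omega⟩
      exact (h1 d).mpr hr V (by omega)
  · exact Pool.Agent.Helper24.SE.thick_full hM.kimura hM.weight hM.points hG hε
  · refine Pool.Agent.Helper24.SE.disj_compl (Pool.Agent.Helper24.SE.cls_tw hM.kimura hM.weight)
      (Pool.Agent.Helper24.SE.tw_space hM.kimura hM.weight hM.points r)
      (MvPolynomial.map (algebraMap ℤ ℚ) F)
      (MvPolynomial.map (algebraMap ℤ ℚ) G) hFG hF |>.imp id fun h => ?_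
    have h1 : princ (F * G) = aff ℚ (Localization.Away
        (MvPolynomial.map (algebraMap ℤ ℚ) F * MvPolynomial.map (algebraMap ℤ ℚ) G)) := by
      unfold princ
      rw [map_mul]
    unfold Exception
    rw [h1]
    exact h

end Pool.Agent.Results.MP_868bb7_ag.PowerSaving
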