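import Pool.Agent.Helper96.KimGlobal

/-!
# Kimura's conjecture and motives of rank one

`𝒜` is a `ℚ`-linear, idempotent complete, symmetric monoidal category with duals and finite direct
sums in which the endomorphisms of the unit object are the rational multiples of the identity, and
`F` is a realisation: a symmetric monoidal functor to finite-dimensional super vector spaces over a
field `K` of characteristic zero (`SuperRealisation`). The example is the category of Chow motives
over `ℂ` (or over any field) with rational coefficients, with a Weil cohomology and the parity of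
the degree.

`KimuraFinite X`: `X` is finite-dimensional in the sense of Kimura. `SplitsByParity F X`: `X` is the
direct sum of an object with even realisation and an object with odd realisation; for all `X` this
is the sign conjecture together with the lifting of the projectors. `Invertible L`: there is `L'`
with `L ⊗ L' ≅ 1`.

Theorem. All objects are finite-dimensional if and only if all objects split by parity and the
objects of rank one, i.e. with a realisation of dimension one, are finite-dimensional, if and only
if all objects split by parity and the objects of rank one are invertible.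

Proof. Let `M` have an even realisation of dimension `d > 0` (the odd case is the same). The
realisation of `D = Λ^d M` has dimension one, so `D` is invertible. Then the endomorphism of `D ⊗ M`
given by the antisymmetriser `e_(d+1)` of the tensor power is `D ◁ g` for an endomorphism `g` of
`M`, and a computation with partial traces shows that `Λ^(d+1) M = 0`. If `d = 0` then `M ⊕ 1` has
rank one, so it is invertible, and `M = 0`.
-/

open CategoryTheory MonoidalCategory Limits BraidedCategory

universe u v w

namespace Pool.Agent.Results.MP_868bb7_ag.RankOneMotives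

open Pool.Agent.TH90.AB Pool.Agent.TH90.Kim Pool.Agent.Helper96.Kim

/-- `X` is the direct sum of an object with even realisation and an object with odd realisation. -/
def SplitsByParity {𝒜 : Type u} [Category.{v} 𝒜] [MonoidalCategory 𝒜] [SymmetricCategory 𝒜]
    [Preadditive 𝒜] [Linear ℚ 𝒜] {K : Type w} [Field K] (F : SuperRealisation 𝒜 K) (X : 𝒜) : Prop :=
  ∃ P Q : 𝒜, Nonempty (Split X P Q) ∧ (∀ x : F.V P, F.par x = x) ∧ ∀ x : F.V Q, F.par x = -x

/-- Finite-dimensionality of all motives in terms of the motives of rank one. -/
theorem result {𝒜 : Type u} [Category.{v} 𝒜] [MonoidalCategory 𝒜] [SymmetricCategory 𝒜]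
    [Preadditive 𝒜] [MonoidalPreadditive 𝒜] [Linear ℚ 𝒜] [MonoidalLinear ℚ 𝒜]
    [HasBinaryBiproducts 𝒜] [IsIdempotentComplete 𝒜] [∀ X : 𝒜, HasRightDual X]
    (hunit : ∀ f : 𝟙_ 𝒜 ⟶ 𝟙_ 𝒜, ∃ q : ℚ, f = q • 𝟙 (𝟙_ 𝒜))
    {K : Type w} [Field K] [CharZero K] (F : SuperRealisation 𝒜 K) :
    List.TFAE [
      ∀ X : 𝒜, KimuraFinite X,
      (∀ X : 𝒜, SplitsByParity F X) ∧
        ∀ L : 𝒜, Module.finrank K (F.V L) = 1 → KimuraFinite L,
      (∀ X : 𝒜, SplitsByParity F X) ∧
        ∀ L : 𝒜, Module.finrank K (F.V L) = 1 → Invertible L] := by
  have h := global F.toReal hunit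
  have e : (∀ X : 𝒜, SplitsByParity F X) ↔ ∀ X : 𝒜, ∃ P Q, Nonempty (F.toReal.EO X P Q) := by
    constructor
    · intro h X
      obtain ⟨P, Q, ⟨S⟩, h1, h2⟩ := h X
      exact ⟨P, Q, ⟨⟨S, h1, h2⟩⟩⟩
    · intro h X
      obtain ⟨P, Q, ⟨E⟩⟩ := h X
      exact ⟨P, Q, ⟨E.S⟩, E.even, E.odd⟩
  rw [e]
  exact h

end Pool.Agent.Results.MP_868bb7_ag.RankOneMotives
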