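import Pool.Agent.Helper96.SP.Main2

/-!
# Kimura finiteness descends from Schur powers

`𝒜` is a `ℚ`-linear, idempotent complete, symmetric monoidal category with duals in which the
endomorphisms of the unit object are the rational multiples of the identity, and `F` is a
realisation: a symmetric monoidal functor to finite-dimensional super vector spaces over a field `K`
of characteristic zero (`SuperRealisation`). The example is the category of Chow motives over `ℂ`
(or over any field) with rational coefficients, with a Weil cohomology and the parity of the degree.

`T M n` is the `n`-th tensor power of `M`. `SchurPart M n D`: `D` is the direct summand of `T M n`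
which is cut out by an idempotent of the algebra generated by the transpositions of neighbouring
factors, i.e. of the image of the group algebra of the symmetric group; for instance `D` is the
Schur power `S_λ (M)` for a partition `λ` of `n`.

Theorem. Let `M` be any object, `D` such a summand of `T M n`, `n ≥ 1`, and `X` any object. If
`D ⊗ X` is not zero and finite-dimensional in the sense of Kimura, then `M` is. Conversely the Schur
powers of a finite-dimensional object are finite-dimensional (Kimura), so for `D ≠ 0` and `X = 1`
this is an equivalence.

Proof. The realisations of `D` and `X` are not zero, because a finite-dimensional object with zero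
realisation is zero. By a known theorem on factors `D` is finite-dimensional; so its parity operator
is algebraic, and the invisible endomorphisms (those with zero realisation) form a nilpotent ideal.

(1) Let `e` be the idempotent of `D`, let `θ` be the parity operator of `D` as an endomorphism of
`T M n`, and contract the sum of the conjugates of `e* θ` along `n - 1` factors. The result is an
endomorphism `u` of `M` acting on the realisation as the parity times a positive diagonal operator;
so the parity of `M` is a polynomial in `u`.

(2) Let `z` be an invisible endomorphism of `M`. The elementary symmetric functions of the operators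
`z` on the factors of `T M n` commute with `e` and are nilpotent on `D`, so a power `z ^ N` on one
factor kills `e`, hence `z ^ N u = 0`. As `u` is invertible up to an invisible `i`, the power
`i ^ N` is idempotent, and a partial trace shows that it is zero. So `z ^ N = 0`, and
`M = P ⊕ Q` with an even and an odd part, and `s = ±1` on `P`, `Q`.

(3) Let `m` be bigger than the dimension of the realisation of `M`, and let `a` be the
antisymmetriser on the `m`-th tensor power of `P`, an operator on `T M m`; it is invisible. Let `E`
be the product of the copies of `e` acting on `m` disjoint blocks of `n` factors of `T M (m * n)`,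
where each block contains one of the `m` factors on which `a` acts. The permutations and the
operators `s` on the factors generate a finite group, whose group algebra is semisimple, and all
invisible endomorphisms of tensor powers of `D` are nilpotent. Therefore `E x a = 0` for all `x` in
this algebra. Contracting, block by block, the factors on which `a` does not act, one finds that
`c ^ m • a = 0`, where the rational number `c` is not zero by a positivity argument. So `a = 0`.
The same for `Q`.
-/

open CategoryTheory MonoidalCategory Limits BraidedCategory

universe u v w

namespace Pool.Agent.Results.MP_868bb7_ag.SchurPowers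

open Pool.Agent.TH90.AB Pool.Agent.TH90.Kim

/-- `D` is the direct summand of the tensor power `T M n` cut out by an idempotent of the
`ℚ`-algebra generated by the transpositions of neighbouring factors. -/
def SchurPart {𝒜 : Type u} [Category.{v} 𝒜] [MonoidalCategory 𝒜] [SymmetricCategory 𝒜]
    [Preadditive 𝒜] [Linear ℚ 𝒜] (M : 𝒜) (n : ℕ) (D : 𝒜) : Prop :=
  ∃ (i : D ⟶ T M n) (r : T M n ⟶ D), i ≫ r = 𝟙 D ∧
    (show End (T M n) from r ≫ i) ∈ Algebra.adjoin ℚ {s : End (T M n) | Adj M n s}

/-- If `D ⊗ X` is Kimura-finite and not zero, where `D` is a Schur power of `M`, then `M` is
Kimura-finite. -/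
theorem result {𝒜 : Type u} [Category.{v} 𝒜] [MonoidalCategory 𝒜] [SymmetricCategory 𝒜]
    [Preadditive 𝒜] [MonoidalPreadditive 𝒜] [Linear ℚ 𝒜] [MonoidalLinear ℚ 𝒜]
    [IsIdempotentComplete 𝒜] [∀ X : 𝒜, HasRightDual X]
    (hunit : ∀ f : 𝟙_ 𝒜 ⟶ 𝟙_ 𝒜, ∃ q : ℚ, f = q • 𝟙 (𝟙_ 𝒜))
    {K : Type w} [Field K] [CharZero K] (F : SuperRealisation 𝒜 K)
    {M D X : 𝒜} {n : ℕ} (hn : 1 ≤ n) (hD : SchurPart M n D) (h0 : 𝟙 (D ⊗ X) ≠ 0)
    (h : KimuraFinite (D ⊗ X)) : KimuraFinite M := by
  obtain ⟨n, rfl⟩ : ∃ k, n = k + 1 := ⟨n - 1, by omega⟩
  obtain ⟨i, r, hir, hperm⟩ := hD
  obtain ⟨z, hz⟩ := Pool.Agent.Helper96.SP.M2.exists_ne F.toReal hunit h h0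
  obtain ⟨hD0, hX0⟩ := Pool.Agent.Helper96.SP.M2.factors_ne F.toReal z hz
  exact Pool.Agent.Helper96.SP.M2.main2 F.toReal hunit i r hir hperm hD0
    (F.toReal.kimuraFinite_left hunit hD0 hX0 h)

end Pool.Agent.Results.MP_868bb7_ag.SchurPowers
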